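import Mathlib

/-! Definitions for Galvin ideals and Ramsey coideals. -/

namespace Pool.Agent.Work.MP_63712b_lc

/-- An ideal on `ω`: contains the finite sets, does not contain `ω`, closed under subsets and
finite unions. -/
structure IsIdeal (I : Set (Set ℕ)) : Prop where
  finite_mem : ∀ S : Set ℕ, S.Finite → S ∈ I
  univ_notMem : (Set.univ : Set ℕ) ∉ I
  subset_mem : ∀ S T : Set ℕ, S ⊆ T → T ∈ I → S ∈ I
  union_mem : ∀ S T : Set ℕ, S ∈ I → T ∈ I → S ∪ T ∈ I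

/-- The coideal `I⁺`: infinite sets not in `I`. -/
def Pos (I : Set (Set ℕ)) : Set (Set ℕ) := {Y | Y.Infinite ∧ Y ∉ I}

/-- `s ⊏ Z`: the finite set `s` is an initial segment of `Z`. -/
def InitSeg (s : Finset ℕ) (Z : Set ℕ) : Prop :=
  (s : Set ℕ) ⊆ Z ∧ ∀ a ∈ s, ∀ z ∈ Z, z ≤ a → z ∈ s

/-- `hom(F)`: infinite `Y` such that no finite subset of `Y` is in `F`, or every infinite
`Z ⊆ Y` has an initial segment in `F`. -/
def Hom (F : Set (Finset ℕ)) : Set (Set ℕ) :=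
  {Y | Y.Infinite ∧ ((∀ s : Finset ℕ, (s : Set ℕ) ⊆ Y → s ∉ F) ∨
    ∀ Z : Set ℕ, Z ⊆ Y → Z.Infinite → ∃ s ∈ F, InitSeg s Z)}

/-- `I` is a Galvin ideal (the ideal axioms are in `IsIdeal`). -/
def IsGalvin (I : Set (Set ℕ)) : Prop :=
  ∀ (F : Set (Finset ℕ)) (X : Set ℕ), X ∈ Pos I → ∃ Y ∈ Pos I, Y ⊆ X ∧ Y ∈ Hom F

/-- The subset of `ω` with characteristic function `c`. -/
def toSet (c : ℕ → Bool) : Set ℕ := {n | c n = true}

/-- `[ω]^ω`, as a subspace of the Cantor space `2^ω`. -/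
abbrev InfSets : Type := {c : ℕ → Bool // (toSet c).Infinite}

/-- `A ⊆ [ω]^ω` is `I⁺`-Ramsey. -/
def IsRamsey (I : Set (Set ℕ)) (A : Set InfSets) : Prop :=
  ∀ X ∈ Pos I, ∃ Y ∈ Pos I, Y ⊆ X ∧
    ((∀ Z : InfSets, toSet Z.1 ⊆ Y → Z ∈ A) ∨ ∀ Z : InfSets, toSet Z.1 ⊆ Y → Z ∉ A)

end Pool.Agent.Work.MP_63712b_lc
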