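import Pool.Agent.Work.MP_63712b_lc.Defs

-- merged part: Pool.Agent.Work.MP_63712b_lc.Galvin
section
/-! Galvin's lemma, via a nonprincipal ultrafilter. -/

namespace Pool.Agent.Work.MP_63712b_lc

open Filter

/-- Diagonalising countably many ultrafilter sets indexed by finite sets. -/
theorem exists_diag (U : Ultrafilter ℕ) (hU : (U : Filter ℕ) ≤ cofinite)
    (σ : Finset ℕ → Set ℕ) (hσ : ∀ t, σ t ∈ U) :
    ∃ W : Set ℕ, W.Infinite ∧ ∀ t : Finset ℕ, (t : Set ℕ) ⊆ W → ∀ n ∈ W,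
      (∀ a ∈ t, a < n) → n ∈ σ t := by
  classical
  have step : ∀ m : ℕ, ∃ n, m ≤ n ∧ ∀ t ∈ (Finset.range m).powerset, n ∈ σ t := by
    intro m
    have h1 : ∀ᶠ n in (U : Filter ℕ), m ≤ n := by
      apply hU
      rw [Nat.cofinite_eq_atTop]
      exact eventually_ge_atTop m
    have h2 : ∀ᶠ n in (U : Filter ℕ), ∀ t ∈ (Finset.range m).powerset, n ∈ σ t :=
      (Filter.eventually_all_finset _).2 fun t _ => hσ t
    exact (h1.and h2).exists
  choose g hg1 hg2 using step
  obtain ⟨w, hw0, hws⟩ : ∃ w : ℕ → ℕ, w 0 = g 0 ∧ ∀ k, w (k + 1) = g (w k + 1) :=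
    ⟨fun k => Nat.rec (g 0) (fun _ p => g (p + 1)) k, rfl, fun k => rfl⟩
  have hmono : StrictMono w := strictMono_nat_of_lt_succ fun k => by
    rw [hws]; exact hg1 _
  refine ⟨Set.range w, Set.infinite_range_of_injective hmono.injective, ?_⟩
  rintro t ht n ⟨k, rfl⟩ hlt
  cases k with
  | zero =>
    have : t = ∅ := by
      rw [Finset.eq_empty_iff_forall_notMem]
      intro a ha
      obtain ⟨j, rfl⟩ := ht ha
      have := hmono.lt_iff_lt.1 (hlt _ ha)
      omega
    subst this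
    rw [hw0]
    exact hg2 0 _ (by simp)
  | succ k =>
    rw [hws]
    apply hg2
    rw [Finset.mem_powerset]
    intro a ha
    obtain ⟨j, rfl⟩ := ht ha
    have h1 := hmono.lt_iff_lt.1 (hlt _ ha)
    have h2 : w j ≤ w k := hmono.monotone (by omega)
    simp only [Finset.mem_range]
    omega

/-- `s` is forced into `F` along the ultrafilter. -/
inductive Good (U : Ultrafilter ℕ) (F : Set (Finset ℕ)) : Finset ℕ → Prop
  | base (s : Finset ℕ) : s ∈ F → Good U F s
  | step (s : Finset ℕ) (A : Set ℕ) : A ∈ U → (∀ n ∈ A, Good U F (insert n s)) → Good U F s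

/-- `Z` follows `σ` above the initial segment `s`. -/
def Follows (σ : Finset ℕ → Set ℕ) (s : Finset ℕ) (Z : Set ℕ) : Prop :=
  ∀ t : Finset ℕ, s ⊆ t → InitSeg t Z → ∀ n ∈ Z, (∀ a ∈ t, a < n) → n ∈ σ t

theorem initSeg_insert {s : Finset ℕ} {Z : Set ℕ} (hZ : Z.Infinite) (hs : InitSeg s Z) :
    ∃ n ∈ Z, (∀ a ∈ s, a < n) ∧ InitSeg (insert n s) Z := by
  classical
  have hex : ∃ n, n ∈ Z ∧ ∀ a ∈ s, a < n := by
    obtain ⟨n, hn, hlt⟩ := hZ.exists_gt (s.sup id)
    exact ⟨n, hn, fun a ha => lt_of_le_of_lt (Finset.le_sup (f := id) ha) hlt⟩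
  refine ⟨Nat.find hex, (Nat.find_spec hex).1, (Nat.find_spec hex).2, ?_, ?_⟩
  · intro a ha
    simp only [Finset.coe_insert, Set.mem_insert_iff, Finset.mem_coe] at ha
    rcases ha with rfl | ha
    · exact (Nat.find_spec hex).1
    · exact hs.1 ha
  · intro a ha z hz hza
    rw [Finset.mem_insert] at ha ⊢
    rcases ha with rfl | ha
    · rcases eq_or_lt_of_le hza with h | h
      · exact Or.inl h
      · have := Nat.find_min hex h
        push Not at this
        obtain ⟨b, hb, hzb⟩ := this hz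
        exact Or.inr (hs.2 b hb z hz hzb)
    · exact Or.inr (hs.2 a ha z hz hza)

theorem good_strategy {U : Ultrafilter ℕ} {F : Set (Finset ℕ)} {s : Finset ℕ} (h : Good U F s) :
    ∃ σ : Finset ℕ → Set ℕ, (∀ t, σ t ∈ U) ∧ ∀ Z : Set ℕ, Z.Infinite → InitSeg s Z →
      Follows σ s Z → ∃ u ∈ F, InitSeg u Z := by
  classical
  induction h with
  | base s hs => exact ⟨fun _ => Set.univ, fun _ => univ_mem, fun Z _ hZ _ => ⟨s, hs, hZ⟩⟩
  | step s A hA _ ih =>
    choose! τ hτ1 hτ2 using ih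
    refine ⟨fun t => A ∩ ⋂ n ∈ t.filter (· ∈ A), τ n t, ?_, ?_⟩
    · intro t
      refine inter_mem hA ?_
      refine (Filter.biInter_finset_mem _).2 fun n hn => hτ1 n (Finset.mem_filter.1 hn).2 t
    · intro Z hZ hs hf
      obtain ⟨n, hn, hlt, hins⟩ := initSeg_insert hZ hs
      have hnA : n ∈ A := (hf s subset_rfl hs n hn hlt).1
      refine hτ2 n hnA Z hZ hins ?_
      intro t hst ht m hm hmt
      have h1 := (hf t ((Finset.subset_insert _ _).trans hst) ht m hm hmt).2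
      simp only [Set.mem_iInter] at h1
      exact h1 n (Finset.mem_filter.2 ⟨hst (Finset.mem_insert_self _ _), hnA⟩)

/-- Galvin's lemma. -/
theorem galvin (F : Set (Finset ℕ)) (X : Set ℕ) (hX : X.Infinite) :
    ∃ W, W ⊆ X ∧ W ∈ Hom F := by
  classical
  have hne : (cofinite ⊓ 𝓟 X : Filter ℕ).NeBot := by
    rw [Filter.inf_principal_neBot_iff]
    intro S hS
    have := hX.diff (mem_cofinite.1 hS)
    obtain ⟨a, ha1, ha2⟩ := this.nonempty
    exact ⟨a, not_not.1 ha2, ha1⟩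
  let U : Ultrafilter ℕ := Ultrafilter.of (cofinite ⊓ 𝓟 X)
  have hU : (U : Filter ℕ) ≤ cofinite := (Ultrafilter.of_le _).trans inf_le_left
  have hXU : X ∈ U := by
    have : (U : Filter ℕ) ≤ 𝓟 X := (Ultrafilter.of_le _).trans inf_le_right
    exact le_principal_iff.1 this
  by_cases hg : Good U F ∅
  · obtain ⟨σ, hσ1, hσ2⟩ := good_strategy hg
    obtain ⟨W, hW, hd⟩ := exists_diag U hU (fun t => X ∩ σ t) fun t => inter_mem hXU (hσ1 t)
    refine ⟨W, fun n hn => (hd ∅ (by simp) n hn (by simp)).1, hW, Or.inr ?_⟩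
    intro Z hZW hZ
    refine hσ2 Z hZ ⟨by simp, by simp⟩ ?_
    intro t _ ht n hn hlt
    exact (hd t (ht.1.trans hZW) n (hZW hn) hlt).2
  · have hσ : ∀ t : Finset ℕ, X ∩ {n | ¬ Good U F t → ¬ Good U F (insert n t)} ∈ U := by
      intro t
      refine inter_mem hXU ?_
      by_cases ht : Good U F t
      · simp [ht]
      · have : {n | Good U F (insert n t)} ∉ U := fun h => ht (Good.step t _ h fun n hn => hn)
        rw [← Ultrafilter.compl_mem_iff_notMem] at this
        filter_upwards [this] with n hn _ using hn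
    obtain ⟨W, hW, hd⟩ := exists_diag U hU _ hσ
    refine ⟨W, fun n hn => (hd ∅ (by simp) n hn (by simp)).1, hW, Or.inl ?_⟩
    have key : ∀ s : Finset ℕ, (s : Set ℕ) ⊆ W → ¬ Good U F s := by
      intro s
      induction s using Finset.induction_on_max with
      | empty => exact fun _ => hg
      | insert a s hlt ih =>
        intro hs
        have hs' : (s : Set ℕ) ⊆ W := fun b hb => hs (by simp [Finset.mem_coe.1 hb])
        exact (hd s hs' a (hs (by simp)) hlt).2 (ih hs')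
    exact fun s hs hF => key s hs (Good.base s hF)

/-- The closed condition: every finite subset of `W` with a subset in `F` has an initial segment
in `F`. -/
def Kplus (F : Set (Finset ℕ)) (v : Finset ℕ) : Prop :=
  (∃ u ∈ F, u ⊆ v) → ∃ u ∈ F, InitSeg u (v : Set ℕ)

theorem exists_kplus (F : Set (Finset ℕ)) (X : Set ℕ) (hX : X.Infinite) :
    ∃ W, W ⊆ X ∧ W.Infinite ∧ ∀ v : Finset ℕ, (v : Set ℕ) ⊆ W → Kplus F v := by
  classical
  obtain ⟨W, hWX, hW, h | h⟩ := galvin {v | ¬ Kplus F v} X hX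
  · exact ⟨W, hWX, hW, fun v hv => not_not.1 (h v hv)⟩
  · exfalso
    have hex : ∃ k, ∃ v ∈ F, (v : Set ℕ) ⊆ W ∧ v.card = k := by
      obtain ⟨s, hs, hsW⟩ := h W subset_rfl hW
      simp only [Kplus, Set.mem_setOf_eq, Classical.not_imp] at hs
      obtain ⟨⟨u, hu, hus⟩, -⟩ := hs
      exact ⟨_, u, hu, (Finset.coe_subset.2 hus).trans hsW.1, rfl⟩
    obtain ⟨v, hvF, hvW, hvc⟩ := Nat.find_spec hex
    let Z : Set ℕ := (v : Set ℕ) ∪ {w ∈ W | ∀ a ∈ v, a < w}
    have hZW : Z ⊆ W := Set.union_subset hvW fun w hw => hw.1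
    have hZ : Z.Infinite := by
      refine Set.Infinite.mono Set.subset_union_right ?_
      refine Set.Infinite.mono (s := W \ Set.Iic (v.sup id)) ?_ (hW.diff (Set.finite_Iic _))
      intro w hw
      refine ⟨hw.1, fun a ha => ?_⟩
      have h1 : a ≤ v.sup id := Finset.le_sup (f := id) ha
      have h2 : ¬ w ≤ v.sup id := hw.2
      omega
    obtain ⟨s, hs, hsZ⟩ := h Z hZW hZ
    simp only [Kplus, Set.mem_setOf_eq, Classical.not_imp] at hs
    obtain ⟨⟨u, hu, hus⟩, hno⟩ := hs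
    by_cases hvs : v ⊆ s
    · apply hno
      refine ⟨v, hvF, Finset.coe_subset.2 hvs, ?_⟩
      intro a ha z hz hza
      rcases hsZ.1 hz with h1 | h1
      · exact h1
      · have := h1.2 a ha
        omega
    · obtain ⟨a, hav, has⟩ := Finset.not_subset.1 hvs
      have hsv : s ⊆ v.erase a := by
        intro b hb
        rw [Finset.mem_erase]
        refine ⟨fun h => has (h ▸ hb), ?_⟩
        rcases hsZ.1 hb with h1 | h1
        · exact h1
        · exact absurd (hsZ.2 b hb a (Or.inl hav) (h1.2 a hav).le) has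
      have hc : u.card < Nat.find hex := by
        rw [← hvc]
        exact lt_of_le_of_lt (Finset.card_le_card (hus.trans hsv)) (Finset.card_erase_lt_of_mem hav)
      exact Nat.find_min hex hc ⟨u, hu, (Finset.coe_subset.2 hus).trans (hsZ.1.trans hZW), rfl⟩

end Pool.Agent.Work.MP_63712b_lc
end

-- merged part: Pool.Agent.Work.MP_63712b_lc.Path
section
/-! Leftmost branches of closed sets, computed from a bound. -/

namespace Pool.Agent.Work.MP_63712b_lc

open Filter

/-- `N f n` only depends on `f 0, ..., f n`. -/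
def IsLocal (N : (ℕ → ℕ) → ℕ → Prop) : Prop :=
  ∀ f g n, (∀ i ≤ n, f i = g i) → N f n → N g n

/-- `f` is the leftmost branch. -/
def Leftmost (N : (ℕ → ℕ) → ℕ → Prop) (f : ℕ → ℕ) : Prop :=
  (∀ n, N f n) ∧ ∀ h, (∀ n, N h n) → ∀ n, (∀ i < n, h i = f i) → f n ≤ h n

/-- The recursively defined leftmost branch. -/
noncomputable def lm (N : (ℕ → ℕ) → ℕ → Prop) (n : ℕ) : ℕ :=
  sInf {a | ∃ h : ℕ → ℕ, (∀ m, N h m) ∧ (∀ i : Fin n, h i = lm N i) ∧ h n = a}
termination_by n
decreasing_by exact i.2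

theorem exists_leftmost {N : (ℕ → ℕ) → ℕ → Prop} (hN : IsLocal N) (hne : ∃ f, ∀ n, N f n) :
    ∃ f, Leftmost N f := by
  have key : ∀ n, ∃ h : ℕ → ℕ, (∀ m, N h m) ∧ ∀ i < n, h i = lm N i := by
    intro n
    induction n with
    | zero => obtain ⟨f, hf⟩ := hne; exact ⟨f, hf, by simp⟩
    | succ n ih =>
      obtain ⟨h, hh1, hh2⟩ := ih
      have hne' : {a | ∃ h : ℕ → ℕ, (∀ m, N h m) ∧ (∀ i : Fin n, h i = lm N i) ∧
          h n = a}.Nonempty := ⟨h n, h, hh1, fun i => hh2 i i.2, rfl⟩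
      obtain ⟨h', h1, h2, h3⟩ := Nat.sInf_mem hne'
      refine ⟨h', h1, fun i hi => ?_⟩
      rcases Nat.lt_succ_iff_lt_or_eq.1 hi with hi | rfl
      · exact h2 ⟨i, hi⟩
      · rw [h3, lm]
  refine ⟨lm N, fun n => ?_, fun h hh n hn => ?_⟩
  · obtain ⟨h, h1, h2⟩ := key (n + 1)
    exact hN h _ n (fun i hi => h2 i (by omega)) (h1 n)
  · rw [lm]
    exact Nat.sInf_le ⟨h, hh, fun i => hn i i.2, rfl⟩

theorem konig {N : (ℕ → ℕ) → ℕ → Prop} (hN : IsLocal N) {B : ℕ → ℕ → Prop}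
    (hB : ∀ n, {a | B n a}.Finite) (g : ℕ → ℕ) (l : ℕ)
    (h : ∀ m, ∃ h : ℕ → ℕ, (∀ i < l, h i = g i) ∧ ∀ n < m, N h n ∧ B n (h n)) :
    ∃ h : ℕ → ℕ, (∀ i < l, h i = g i) ∧ ∀ n, N h n := by
  choose H hH1 hH2 using h
  have hev : ∀ n, ∀ᶠ m in (hyperfilter ℕ : Filter ℕ), n < m := by
    intro n
    apply hyperfilter_le_cofinite
    rw [Nat.cofinite_eq_atTop]
    exact eventually_gt_atTop n
  have hlim : ∀ n, ∃ a, ∀ᶠ m in (hyperfilter ℕ : Filter ℕ), H m n = a := by
    intro n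
    have h1 : ∀ᶠ m in (hyperfilter ℕ : Filter ℕ), ∃ a ∈ {a | B n a}, H m n = a := by
      filter_upwards [hev n] with m hm using ⟨_, (hH2 m n hm).2, rfl⟩
    obtain ⟨a, -, ha⟩ := (Ultrafilter.eventually_exists_mem_iff (hB n)).1 h1
    exact ⟨a, ha⟩
  choose f hf using hlim
  refine ⟨f, fun i hi => ?_, fun n => ?_⟩
  · obtain ⟨m, hm⟩ := (hf i).exists
    rw [← hm, hH1 m i hi]
  · have h1 : ∀ᶠ m in (hyperfilter ℕ : Filter ℕ), ∀ i ∈ Finset.range (n + 1), H m i = f i :=
      (Filter.eventually_all_finset _).2 fun i _ => hf i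
    obtain ⟨m, hm1, hm2⟩ := (h1.and (hev n)).exists
    exact hN (H m) f n (fun i hi => hm1 i (Finset.mem_range.2 (by omega))) (hH2 m n hm2).1

/-- The function given by a list. -/
def fn (t : List ℕ) : ℕ → ℕ := fun i => t.getD i 0

/-- The first `n` values of `f`. -/
def pre (f : ℕ → ℕ) (n : ℕ) : List ℕ := (List.range n).map f

theorem fn_pre (f : ℕ → ℕ) {n i : ℕ} (h : i < n) : fn (pre f n) i = f i := by
  simp [fn, pre, List.getD, h]

theorem pre_congr {f g : ℕ → ℕ} {n : ℕ} (h : ∀ i < n, f i = g i) : pre f n = pre g n := by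
  unfold pre
  exact List.map_congr_left fun i hi => h i (List.mem_range.1 hi)

theorem length_pre (f : ℕ → ℕ) (n : ℕ) : (pre f n).length = n := by simp [pre]

/-- The first `l` values of `g` have arbitrarily long bounded extensions. -/
def Ext (N : (ℕ → ℕ) → ℕ → Prop) (B : ℕ → ℕ → Prop) (g : ℕ → ℕ) (l : ℕ) : Prop :=
  ∀ m, ∃ t : List ℕ, (∀ i < l, fn t i = g i) ∧ ∀ n < m, N (fn t) n ∧ B n (fn t n)

/-- The first `l` values of `g` are leftmost among the extendable ones. -/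
def Lm (N : (ℕ → ℕ) → ℕ → Prop) (B : ℕ → ℕ → Prop) (g : ℕ → ℕ) (l : ℕ) : Prop :=
  Ext N B g l ∧ ∀ n < l, ∀ a < g n, ¬ Ext N B (Function.update g n a) (n + 1)

theorem ext_of_agree {N : (ℕ → ℕ) → ℕ → Prop} (hN : IsLocal N) {B : ℕ → ℕ → Prop}
    {f : ℕ → ℕ} (hf : ∀ n, N f n) (hfB : ∀ n, B n (f n)) {g : ℕ → ℕ} {l : ℕ}
    (h : ∀ i < l, g i = f i) : Ext N B g l := by
  intro m
  refine ⟨pre f (max l m), fun i hi => ?_, fun n hn => ⟨?_, ?_⟩⟩
  · rw [fn_pre f (lt_max_of_lt_left hi), h i hi]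
  · exact hN f _ n (fun i hi => (fn_pre f (lt_max_of_lt_right (by omega))).symm) (hf n)
  · rw [fn_pre f (lt_max_of_lt_right hn)]
    exact hfB n

theorem lm_iff {N : (ℕ → ℕ) → ℕ → Prop} (hN : IsLocal N) {B : ℕ → ℕ → Prop}
    (hB : ∀ n, {a | B n a}.Finite) {f : ℕ → ℕ} (hf : Leftmost N f) (hfB : ∀ n, B n (f n))
    (g : ℕ → ℕ) (l : ℕ) : Lm N B g l ↔ ∀ i < l, g i = f i := by
  have hk : ∀ g l, Ext N B g l → ∃ h : ℕ → ℕ, (∀ i < l, h i = g i) ∧ ∀ n, N h n := by
    intro g l h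
    refine konig hN hB g l fun m => ?_
    obtain ⟨t, ht⟩ := h m
    exact ⟨fn t, ht⟩
  constructor
  · rintro ⟨h1, h2⟩ i
    induction i using Nat.strong_induction_on with
    | _ n ih =>
      intro hn
      obtain ⟨h, hh1, hh2⟩ := hk g l h1
      have h3 : f n ≤ g n := by
        rw [← hh1 n hn]
        exact hf.2 h hh2 n fun i hi => by rw [hh1 i (by omega), ih i hi (by omega)]
      rcases eq_or_lt_of_le h3 with h4 | h4
      · exact h4.symm
      · refine absurd (ext_of_agree hN hf.1 hfB fun i hi => ?_) (h2 n hn _ h4)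
        rcases Nat.lt_succ_iff_lt_or_eq.1 hi with hi | rfl
        · rw [Function.update_of_ne hi.ne, ih i hi (by omega)]
        · simp
  · intro h
    refine ⟨ext_of_agree hN hf.1 hfB h, fun n hn a ha hE => ?_⟩
    obtain ⟨h', hh1, hh2⟩ := hk _ _ hE
    have h3 := hf.2 h' hh2 n fun i hi => by
      rw [hh1 i (by omega), Function.update_of_ne hi.ne, h i (by omega)]
    rw [hh1 n (by omega), Function.update_self, ← h n hn] at h3
    omega

theorem measurable_ext {Ω : Type*} [MeasurableSpace Ω] {N : Ω → (ℕ → ℕ) → ℕ → Prop}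
    {B : Ω → ℕ → ℕ → Prop} (hN : ∀ f n, Measurable fun ω => N ω f n)
    (hB : ∀ n a, Measurable fun ω => B ω n a) (g : ℕ → ℕ) (l : ℕ) :
    Measurable fun ω => Ext (N ω) (B ω) g l := by
  unfold Ext
  refine Measurable.forall fun m => Measurable.exists fun t => measurable_const.and ?_
  exact Measurable.forall fun n => measurable_const.imp ((hN _ _).and (hB _ _))

theorem measurable_lm {Ω : Type*} [MeasurableSpace Ω] {N : Ω → (ℕ → ℕ) → ℕ → Prop}
    {B : Ω → ℕ → ℕ → Prop} (hN : ∀ f n, Measurable fun ω => N ω f n)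
    (hB : ∀ n a, Measurable fun ω => B ω n a) (g : ℕ → ℕ) (l : ℕ) :
    Measurable fun ω => Lm (N ω) (B ω) g l := by
  unfold Lm
  refine (measurable_ext hN hB g l).and ?_
  exact Measurable.forall fun n => measurable_const.imp (Measurable.forall fun a =>
    measurable_const.imp (measurable_ext hN hB _ _).not)

end Pool.Agent.Work.MP_63712b_lc
end

-- merged part: Pool.Agent.Work.MP_63712b_lc.Main
section
/-! A Galvin ideal and a Borel set that is not Ramsey for its coideal. -/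

namespace Pool.Agent.Work.MP_63712b_lc

open Filter

/-- A coding of natural numbers by subsets of `ℕ`. -/
abbrev Code : Type := ℕ → ℕ → Prop

/-- The basic coding. -/
def c0 : Code := fun m i => i ∈ Denumerable.ofNat (Finset ℕ) (Nat.unpair m).1

/-- The limit of the codes along `Z`. -/
def lim (c : Code) (Z : Set ℕ) (i : ℕ) : Prop := ∃ K, ∀ z, K ≤ z → z ∈ Z → c z i

/-- At most `n + 1` elements of `Z` lie below `a`. -/
def Bd (Z : Set ℕ) (n a : ℕ) : Prop :=
  ¬ ∃ s : Finset ℕ, s.card = n + 2 ∧ ∀ b, b ∈ s → b ∈ Z ∧ b < a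

/-- The node condition. -/
def Node (c : Code) (x : ℕ → Prop) (f : ℕ → ℕ) (n : ℕ) : Prop :=
  x (Encodable.encode (pre f (n + 1)) + 2) ∧ (1 ≤ n → ∀ i < n, (c (f n) i ↔ x i))

/-- The next coding. -/
def next (c : Code) (Z : Set ℕ) : Code := fun m i =>
  ∃ t : List ℕ, ∃ n, 1 ≤ n ∧ Lm (Node c (lim c Z)) (Bd Z) (fn t) (n + 1) ∧ fn t n = m ∧ c0 n i

/-- The coding at level `k` computed from `Z`. -/
def code : ℕ → Set ℕ → Code
  | 0, _ => c0
  | k + 1, Z => next (code k Z) Z

/-- The real read off at level `k`. -/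
def xk (k : ℕ) (Z : Set ℕ) : ℕ → Prop := lim (code k Z) Z

/-- The Borel set. -/
def InA (Z : Set ℕ) : Prop := ∃ k, (∀ j < k, ¬ xk j Z 0) ∧ xk k Z 0 ∧ xk k Z 1

/-- The codes of elements of `Y` are dense. -/
def DenseCode (c : Code) (Y : Set ℕ) : Prop :=
  ∀ (x : ℕ → Prop) (n : ℕ), {y | y ∈ Y ∧ ∀ i < n, (c y i ↔ x i)}.Infinite

/-- Positions of the construction. -/
def State (Y : Set ℕ) (k : ℕ) : Prop :=
  ∃ c, DenseCode c Y ∧ ∀ Z, Z ⊆ Y → Z.Infinite → code k Z = c ∧ ∀ j < k, ¬ xk j Z 0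

theorem measurable_code (k m i : ℕ) : Measurable fun Z : Set ℕ => code k Z m i := by
  induction k generalizing m i with
  | zero => exact measurable_const
  | succ k ih =>
    have hlim : ∀ i, Measurable fun Z : Set ℕ => lim (code k Z) Z i := fun i =>
      Measurable.exists fun K => Measurable.forall fun z => measurable_const.imp
        ((measurable_set_mem z).imp (ih z i))
    refine Measurable.exists fun t => Measurable.exists fun n => measurable_const.and
      (Measurable.and ?_ measurable_const)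
    refine measurable_lm (N := fun Z => Node (code k Z) (lim (code k Z) Z)) (B := fun Z => Bd Z)
      (fun f n => ?_) (fun n a => ?_) _ _
    · exact (hlim _).and (measurable_const.imp (Measurable.forall fun i =>
        measurable_const.imp ((ih _ _).iff (hlim _))))
    · exact (Measurable.exists fun s => measurable_const.and (Measurable.forall fun b =>
        measurable_const.imp ((measurable_set_mem b).and measurable_const))).not

theorem measurable_xk (k i : ℕ) : Measurable fun Z : Set ℕ => xk k Z i :=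
  Measurable.exists fun _ => Measurable.forall fun z => measurable_const.imp
    ((measurable_set_mem z).imp (measurable_code k z i))

theorem measurable_inA : Measurable InA :=
  Measurable.exists fun k => (Measurable.forall fun j => measurable_const.imp
    (measurable_xk j 0).not).and ((measurable_xk k 0).and (measurable_xk k 1))

theorem dense_c0 (x : ℕ → Prop) (n : ℕ) : {m | ∀ i < n, (c0 m i ↔ x i)}.Infinite := by
  classical
  obtain ⟨a, ha⟩ : ∃ a, Denumerable.ofNat (Finset ℕ) a = (Finset.range n).filter x :=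
    ⟨_, Denumerable.ofNat_encode _⟩
  refine Set.infinite_of_injective_forall_mem (f := fun j => Nat.pair a j) ?_ ?_
  · intro a b hab
    exact (Nat.pair_eq_pair.1 hab).2
  · intro j i hi
    simp [c0, hi, ha]

theorem state_univ : State Set.univ 0 :=
  ⟨c0, fun x n => by simpa using dense_c0 x n, fun _ _ _ => ⟨rfl, by simp⟩⟩

theorem State.infinite {Y : Set ℕ} {k : ℕ} (h : State Y k) : Y.Infinite := by
  obtain ⟨c, hc, -⟩ := h
  exact (hc (fun _ => True) 0).mono fun y hy => hy.1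

theorem State.not_hom {Y : Set ℕ} {k : ℕ} (h : State Y k) :
    (∃ Z, Z ⊆ Y ∧ Z.Infinite ∧ InA Z) ∧ ∃ Z, Z ⊆ Y ∧ Z.Infinite ∧ ¬ InA Z := by
  obtain ⟨c, hc, hZ⟩ := h
  constructor
  · have h1 := hc (fun _ => True) 2
    have h2 : {y | y ∈ Y ∧ ∀ i < 2, (c y i ↔ True)} ⊆ Y := fun y hy => hy.1
    obtain ⟨h3, h4⟩ := hZ _ h2 h1
    refine ⟨_, h2, h1, k, h4, ?_, ?_⟩
    · exact ⟨0, fun z _ hz => by rw [h3]; exact (hz.2 0 (by omega)).2 trivial⟩
    · exact ⟨0, fun z _ hz => by rw [h3]; exact (hz.2 1 (by omega)).2 trivial⟩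
  · have h1 := hc (fun i => i = 0) 2
    have h2 : {y | y ∈ Y ∧ ∀ i < 2, (c y i ↔ i = 0)} ⊆ Y := fun y hy => hy.1
    obtain ⟨h3, h4⟩ := hZ _ h2 h1
    refine ⟨_, h2, h1, ?_⟩
    rintro ⟨j, hj1, hj2, hj3⟩
    rcases lt_trichotomy j k with h | rfl | h
    · exact h4 j h hj2
    · obtain ⟨K, hK⟩ := hj3
      obtain ⟨z, hz, hlt⟩ := h1.exists_gt K
      have h5 := hK z hlt.le hz
      rw [h3] at h5
      have := (hz.2 1 (by omega)).1 h5
      omega
    · exact hj1 k h ⟨0, fun z _ hz => by rw [h3]; exact (hz.2 0 (by omega)).2 rfl⟩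

theorem isLocal_node (c : Code) (x : ℕ → Prop) : IsLocal (Node c x) := by
  intro f g n h hf
  unfold Node at hf ⊢
  rw [← pre_congr (f := f) (g := g) (n := n + 1) (fun i hi => h i (by omega)), ← h n le_rfl]
  exact hf

theorem finite_bd {Z : Set ℕ} (hZ : Z.Infinite) (n : ℕ) : {a | Bd Z n a}.Finite := by
  obtain ⟨s, hs, hc⟩ := hZ.exists_subset_card_eq (n + 2)
  refine (Set.finite_Iic (s.sup id)).subset fun a ha => ?_
  by_contra hlt
  refine ha ⟨s, hc, fun b hb => ⟨hs hb, ?_⟩⟩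
  have h1 : b ≤ s.sup id := Finset.le_sup (f := id) hb
  simp only [Set.mem_Iic] at hlt
  omega

theorem lim_iff {c : Code} {x : ℕ → Prop} {y : ℕ → ℕ} (hy : StrictMono y)
    (hc : ∀ n, ∀ i < n + 1, (c (y n) i ↔ x i)) {Z : Set ℕ} (hZ : Z ⊆ Set.range y)
    (hZi : Z.Infinite) (i : ℕ) : lim c Z i ↔ x i := by
  have key : ∀ z ∈ Z, y i ≤ z → (c z i ↔ x i) := by
    intro z hz hle
    obtain ⟨n, rfl⟩ := hZ hz
    exact hc n i (by have := hy.le_iff_le.1 hle; omega)
  constructor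
  · rintro ⟨K, hK⟩
    obtain ⟨z, hz, hlt⟩ := hZi.exists_gt (max K (y i))
    exact (key z hz (le_of_max_le_right hlt.le)).1 (hK z (le_of_max_le_left hlt.le) hz)
  · intro hx
    exact ⟨y i, fun z hle hz => (key z hz hle).2 hx⟩

/-- The tree that is coded at the next step. -/
def TreeP (Y : Set ℕ) (F : Set (Finset ℕ)) (f : ℕ → ℕ) (n : ℕ) : Prop :=
  f 0 ≤ 1 ∧ (∀ i j, 1 ≤ i → i < j → j ≤ n → f i < f j) ∧ (∀ i, 1 ≤ i → i ≤ n → f i ∈ Y) ∧
    ∀ v : Finset ℕ, (∀ a ∈ v, ∃ i, 1 ≤ i ∧ i ≤ n ∧ f i = a) →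
      (f 0 = 0 → v ∉ F) ∧ (f 0 = 1 → Kplus F v)

theorem isLocal_treeP (Y : Set ℕ) (F : Set (Finset ℕ)) : IsLocal (TreeP Y F) := by
  rintro f g n h ⟨h1, h2, h3, h4⟩
  rw [h 0 (by omega)] at h1 h4
  refine ⟨h1, fun i j hi hij hj => ?_, fun i hi hn => ?_, fun v hv => h4 v fun a ha => ?_⟩
  · rw [← h i (by omega), ← h j hj]
    exact h2 i j hi hij hj
  · rw [← h i hn]
    exact h3 i hi hn
  · obtain ⟨i, hi1, hi2, hi3⟩ := hv a ha
    exact ⟨i, hi1, hi2, by rw [h i hi2, hi3]⟩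

/-- The real coding the tree. -/
def xs (Y : Set ℕ) (F : Set (Finset ℕ)) (j : ℕ) : Prop :=
  ∃ t : List ℕ, j = Encodable.encode t + 2 ∧ TreeP Y F (fn t) (t.length - 1)

theorem xs_pre (Y : Set ℕ) (F : Set (Finset ℕ)) (f : ℕ → ℕ) (n : ℕ) :
    xs Y F (Encodable.encode (pre f (n + 1)) + 2) ↔ TreeP Y F f n := by
  have h1 : ∀ i ≤ n, fn (pre f (n + 1)) i = f i := fun i hi => fn_pre f (by omega)
  constructor
  · rintro ⟨t, ht1, ht2⟩
    have : pre f (n + 1) = t := Encodable.encode_injective (by omega)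
    subst this
    rw [length_pre, Nat.add_sub_cancel] at ht2
    exact isLocal_treeP Y F _ _ n h1 ht2
  · intro h
    refine ⟨_, rfl, ?_⟩
    rw [length_pre, Nat.add_sub_cancel]
    exact isLocal_treeP Y F _ _ n (fun i hi => (h1 i hi).symm) h

theorem exists_branch {c : Code} {Y : Set ℕ} {F : Set (Finset ℕ)} {y : ℕ → ℕ}
    (hy : StrictMono y) (hyY : ∀ n, y n ∈ Y)
    (hc : ∀ n, ∀ i < n + 1, (c (y n) i ↔ xs Y F i)) {W : Set ℕ} (hW : W ⊆ Set.range y)
    (hWi : W.Infinite) (e : ℕ) (he : e ≤ 1)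
    (hv : ∀ v : Finset ℕ, (v : Set ℕ) ⊆ W → (e = 0 → v ∉ F) ∧ (e = 1 → Kplus F v)) :
    ∃ f : ℕ → ℕ, f 0 = e ∧ ∀ n, Node c (xs Y F) f n := by
  have hmem : ∀ m, Nat.nth (· ∈ W) m ∈ W := fun m => Nat.nth_mem_of_infinite hWi m
  have hmono : StrictMono (Nat.nth (· ∈ W)) := Nat.nth_strictMono hWi
  choose φ hφ using fun m => hW (hmem m)
  have hφm : StrictMono φ := by
    intro a b hab
    apply hy.lt_iff_lt.1
    rw [hφ, hφ]
    exact hmono hab
  let f : ℕ → ℕ := fun n => if n = 0 then e else Nat.nth (· ∈ W) (n - 1)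
  have hf0 : f 0 = e := rfl
  have hf : ∀ i, 1 ≤ i → f i = Nat.nth (· ∈ W) (i - 1) := fun i hi => if_neg (by omega)
  refine ⟨f, hf0, fun n => ⟨?_, fun hn i hi => ?_⟩⟩
  · rw [xs_pre]
    refine ⟨he, fun i j hi hij _ => ?_, fun i hi _ => ?_, fun v hv' => hv v fun a ha => ?_⟩
    · rw [hf i hi, hf j (by omega)]
      exact hmono (by omega)
    · rw [hf i hi, ← hφ]
      exact hyY _
    · obtain ⟨i, hi1, -, hi3⟩ := hv' a ha
      rw [← hi3, hf i hi1]
      exact hmem _
  · rw [hf n hn, ← hφ]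
    have := hφm.id_le (n - 1)
    simp only [id] at this
    exact hc _ i (by omega)

theorem State.step {Y : Set ℕ} {k : ℕ} (h : State Y k) (F : Set (Finset ℕ)) :
    ∃ W, W ⊆ Y ∧ State W (k + 1) ∧ W ∈ Hom F := by
  classical
  obtain ⟨c, hc, hZ⟩ := h
  -- a sequence in `Y` converging to the real that codes the tree
  have hstep : ∀ p n : ℕ, ∃ q, p < q ∧ q ∈ Y ∧ ∀ i < n + 1, (c q i ↔ xs Y F i) := by
    intro p n
    obtain ⟨q, hq, hlt⟩ := (hc (xs Y F) (n + 1)).exists_gt p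
    exact ⟨q, hlt, hq⟩
  choose g hg1 hg2 hg3 using hstep
  obtain ⟨y, hy0, hys⟩ : ∃ y : ℕ → ℕ, y 0 = g 0 0 ∧ ∀ n, y (n + 1) = g (y n) (n + 1) :=
    ⟨fun n => Nat.rec (g 0 0) (fun n p => g p (n + 1)) n, rfl, fun _ => rfl⟩
  have hy : StrictMono y := strictMono_nat_of_lt_succ fun n => by rw [hys]; exact hg1 _ _
  have hyY : ∀ n, y n ∈ Y := by
    rintro (_ | n)
    · rw [hy0]; exact hg2 _ _
    · rw [hys]; exact hg2 _ _
  have hyc : ∀ n, ∀ i < n + 1, (c (y n) i ↔ xs Y F i) := by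
    rintro (_ | n)
    · rw [hy0]; exact hg3 _ _
    · rw [hys]; exact hg3 _ _
  obtain ⟨W0, hW0, hW0i, hW0k⟩ :=
    exists_kplus F (Set.range y) (Set.infinite_range_of_injective hy.injective)
  obtain ⟨f0, -, hf0⟩ := exists_branch hy hyY hyc hW0 hW0i 1 le_rfl
    fun v hv => ⟨by omega, fun _ => hW0k v hv⟩
  obtain ⟨f, hf⟩ := exists_leftmost (isLocal_node c (xs Y F)) ⟨f0, hf0⟩
  have hT : ∀ n, TreeP Y F f n := fun n => (xs_pre Y F f n).1 (hf.1 n).1
  let w : ℕ → ℕ := fun n => f (n + 1)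
  have hw : StrictMono w := fun a b hab => (hT (b + 1)).2.1 _ _ (by omega) (by omega) le_rfl
  have hwY : ∀ n, w n ∈ Y := fun n => (hT (n + 1)).2.2.1 _ (by omega) le_rfl
  have hwc : ∀ n, ∀ i < n + 1, (c (w n) i ↔ xs Y F i) := fun n => (hf.1 (n + 1)).2 (by omega)
  have hWY : Set.range w ⊆ Y := by rintro _ ⟨n, rfl⟩; exact hwY n
  have hWi : (Set.range w).Infinite := Set.infinite_range_of_injective hw.injective
  have hv : ∀ v : Finset ℕ, (v : Set ℕ) ⊆ Set.range w →
      (f 0 = 0 → v ∉ F) ∧ (f 0 = 1 → Kplus F v) := by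
    intro v hv
    refine (hT (v.sup id + 1)).2.2.2 v fun a ha => ?_
    obtain ⟨n, rfl⟩ := hv ha
    have h1 : w n ≤ v.sup id := Finset.le_sup (f := id) ha
    have h2 := hw.id_le n
    simp only [id] at h2
    exact ⟨n + 1, by omega, by omega, rfl⟩
  refine ⟨Set.range w, hWY, ⟨fun m i => ∃ n, 1 ≤ n ∧ f n = m ∧ c0 n i, ?_, ?_⟩, hWi, ?_⟩
  · intro x n
    have h1 : ({m | ∀ i < n, (c0 m i ↔ x i)} \ {0}).Infinite :=
      (dense_c0 x n).diff (Set.finite_singleton 0)
    have hinj : ∀ a b, 1 ≤ a → 1 ≤ b → f a = f b → a = b := by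
      intro a b ha hb hab
      have : w (a - 1) = w (b - 1) := by
        simp only [w, Nat.sub_add_cancel ha, Nat.sub_add_cancel hb, hab]
      have := hw.injective this
      omega
    have h2 : Set.InjOn f ({m | ∀ i < n, (c0 m i ↔ x i)} \ {0}) := by
      intro a ha b hb hab
      have ha' : a ≠ 0 := ha.2
      have hb' : b ≠ 0 := hb.2
      exact hinj a b (by omega) (by omega) hab
    refine (h1.image h2).mono ?_
    rintro _ ⟨a, ha, rfl⟩
    have ha' : a ≠ 0 := ha.2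
    refine ⟨⟨a - 1, by simp only [w, Nat.sub_add_cancel (show 1 ≤ a by omega)]⟩, fun i hi => ?_⟩
    rw [← ha.1 i hi]
    constructor
    · rintro ⟨b, hb1, hb2, hb3⟩
      rw [← hinj b a hb1 (by omega) hb2]
      exact hb3
    · exact fun h => ⟨a, by omega, rfl, h⟩
  · intro Z hZW hZi
    obtain ⟨h1, h2⟩ := hZ Z (hZW.trans hWY) hZi
    have h3 : lim c Z = xs Y F := funext fun i => propext (lim_iff hw hwc hZW hZi i)
    have hB : ∀ n, Bd Z n (f n) := by
      rintro n ⟨s, hs1, hs2⟩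
      rcases Nat.eq_zero_or_pos n with rfl | hn
      · have h4 : s ⊆ Finset.range 1 := fun b hb => by
          have := (hs2 b hb).2
          have := (hT 0).1
          simp only [Finset.mem_range]
          omega
        have := Finset.card_le_card h4
        simp only [Finset.card_range] at this
        omega
      · have h4 : s ⊆ (Finset.range n).image w := fun b hb => by
          obtain ⟨j, rfl⟩ := hZW (hs2 b hb).1
          have h5 : w j < w (n - 1) := by
            have := (hs2 _ hb).2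
            simpa only [w, Nat.sub_add_cancel hn] using this
          have := hw.lt_iff_lt.1 h5
          exact Finset.mem_image.2 ⟨j, Finset.mem_range.2 (by omega), rfl⟩
        have h5 := (Finset.card_le_card h4).trans Finset.card_image_le
        simp only [Finset.card_range] at h5
        omega
    constructor
    · funext m i
      apply propext
      simp only [code, next, h1, h3,
        lm_iff (isLocal_node c (xs Y F)) (finite_bd hZi) hf hB]
      constructor
      · rintro ⟨t, n, hn, ht1, ht2, ht3⟩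
        exact ⟨n, hn, by rw [← ht1 n (by omega), ht2], ht3⟩
      · rintro ⟨n, hn, rfl, ht⟩
        exact ⟨pre f (n + 1), n, hn, fun i hi => fn_pre f hi, fn_pre f (by omega), ht⟩
    · intro j hj
      rcases Nat.lt_succ_iff_lt_or_eq.1 hj with hj | rfl
      · exact h2 j hj
      · rw [xk, h1, h3]
        rintro ⟨t, ht, -⟩
        omega
  · have h01 := (hT 0).1
    rcases Nat.eq_zero_or_pos (f 0) with h0 | h0
    · exact Or.inl fun s hs => (hv s hs).1 h0
    · right
      intro Z hZW hZi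
      have h1 : ∃ v : Finset ℕ, (v : Set ℕ) ⊆ Z ∧ v ∈ F := by
        by_contra hno
        push Not at hno
        obtain ⟨f', hf'0, hf'⟩ := exists_branch hw hwY hwc hZW hZi 0 (by omega)
          fun v hv => ⟨fun _ => hno v hv, by omega⟩
        have := hf.2 f' hf' 0 (by simp)
        omega
      obtain ⟨v, hvZ, hvF⟩ := h1
      let u : Finset ℕ := (Finset.range (v.sup id + 1)).filter (· ∈ Z)
      have huZ : (u : Set ℕ) ⊆ Z := fun a ha => (Finset.mem_filter.1 ha).2
      obtain ⟨s, hsF, hs1, hs2⟩ := (hv u (huZ.trans hZW)).2 (by omega) ⟨v, hvF, fun a ha => by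
        have : a ≤ v.sup id := Finset.le_sup (f := id) ha
        exact Finset.mem_filter.2 ⟨Finset.mem_range.2 (by omega), hvZ ha⟩⟩
      refine ⟨s, hsF, hs1.trans huZ, fun a ha z hz hza => hs2 a ha z ?_ hza⟩
      have := Finset.mem_range.1 (Finset.mem_filter.1 (hs1 ha)).1
      exact Finset.mem_filter.2 ⟨Finset.mem_range.2 (by omega), hz⟩

/-- The ideal of sets containing no position. -/
def idl : Set (Set ℕ) := {S | ¬ ∃ Y k, State Y k ∧ Y ⊆ S}

theorem mem_pos {S : Set ℕ} : S ∈ Pos idl ↔ ∃ Y k, State Y k ∧ Y ⊆ S := by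
  constructor
  · exact fun h => not_not.1 h.2
  · rintro ⟨Y, k, h1, h2⟩
    exact ⟨h1.infinite.mono h2, fun h => h ⟨Y, k, h1, h2⟩⟩

theorem isIdeal_idl : IsIdeal idl := by
  classical
  refine ⟨?_, fun h => h ⟨_, 0, state_univ, subset_rfl⟩, ?_, ?_⟩
  · rintro S hS ⟨Y, k, h1, h2⟩
    exact h1.infinite (hS.subset h2)
  · rintro S T hST hT ⟨Y, k, h1, h2⟩
    exact hT ⟨Y, k, h1, h2.trans hST⟩
  · rintro S T hS hT ⟨Y, k, h1, h2⟩
    obtain ⟨W, hWY, hW, hWi, h | h⟩ := h1.step {s | ∃ n ∈ S, s = {n}}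
    · refine hT ⟨W, _, hW, fun n hn => ?_⟩
      rcases h2 (hWY hn) with h3 | h3
      · exact absurd ⟨n, h3, rfl⟩ (h {n} (by simpa using hn))
      · exact h3
    · refine hS ⟨W, _, hW, fun n hn => ?_⟩
      obtain ⟨s, ⟨m, hm, rfl⟩, hs1, hs2⟩ := h (W \ Set.Iio n) Set.diff_subset
        (hWi.diff (Set.finite_Iio n))
      have h3 : m ∈ W \ Set.Iio n := hs1 (by simp)
      have h4 : ¬ m < n := h3.2
      have h5 := hs2 m (by simp) n ⟨hn, by simp⟩ (by omega)
      rw [Finset.mem_singleton] at h5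
      exact h5 ▸ hm

theorem isGalvin_idl : IsGalvin idl := by
  intro F X hX
  obtain ⟨Y, k, h1, h2⟩ := mem_pos.1 hX
  obtain ⟨W, hWY, hW, hH⟩ := h1.step F
  exact ⟨W, mem_pos.2 ⟨W, _, hW, subset_rfl⟩, hWY.trans h2, hH⟩

theorem measurable_toSet : Measurable toSet := by
  refine measurable_set_iff.2 fun n => ?_
  exact (measurable_pi_apply (X := fun _ : ℕ => Bool) n).eq_const true

theorem exists_toSet (Z : Set ℕ) : ∃ c, toSet c = Z := by
  classical
  exact ⟨fun n => decide (n ∈ Z), by ext n; simp [toSet]⟩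

/-- The Borel set as a subset of `[ω]^ω`. -/
def setA : Set InfSets := {Z | InA (toSet Z.1)}

theorem borel_setA : @MeasurableSet _ (borel InfSets) setA := by
  have h1 : MeasurableSet {c : ℕ → Bool | InA (toSet c)} :=
    measurableSet_setOf.2 (measurable_inA.comp measurable_toSet)
  have h2 : @MeasurableSet _ (borel (ℕ → Bool)) {c : ℕ → Bool | InA (toSet c)} := by
    rw [← BorelSpace.measurable_eq (α := ℕ → Bool)]
    exact h1
  exact (continuous_subtype_val (p := fun c => (toSet c).Infinite)).borel_measurable h2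

theorem analytic_setA : MeasureTheory.AnalyticSet setA := by
  have h0 : Measurable fun c : ℕ → Bool => (toSet c).Infinite := by
    have : (fun c : ℕ → Bool => (toSet c).Infinite) = fun c => ∀ n, ∃ m, m ∈ toSet c ∧ n < m := by
      funext c
      exact propext ⟨fun h n => h.exists_gt n, fun h => Set.infinite_of_forall_exists_gt h⟩
    rw [this]
    exact Measurable.forall fun n => Measurable.exists fun m =>
      ((measurable_set_mem m).comp measurable_toSet).and measurable_const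
  have h1 : MeasurableSet {c : ℕ → Bool | (toSet c).Infinite ∧ InA (toSet c)} :=
    measurableSet_setOf.2 (h0.and (measurable_inA.comp measurable_toSet))
  have : PolishSpace (ℕ → Bool) := instPolishSpaceOfSeparableSpaceOfIsCompletelyMetrizableSpace
  have h2 := h1.analyticSet
  rw [MeasureTheory.AnalyticSet] at h2 ⊢
  rcases h2 with h2 | ⟨f, hf1, hf2⟩
  · left
    rw [Set.eq_empty_iff_forall_notMem] at h2 ⊢
    exact fun Z hZ => h2 Z.1 ⟨Z.2, hZ⟩
  · right
    have h3 : ∀ a, (toSet (f a)).Infinite ∧ InA (toSet (f a)) := fun a => by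
      have : f a ∈ Set.range f := ⟨a, rfl⟩
      rwa [hf2] at this
    refine ⟨fun a => ⟨f a, (h3 a).1⟩, hf1.subtype_mk _, ?_⟩
    ext Z
    constructor
    · rintro ⟨a, rfl⟩
      exact (h3 a).2
    · intro hZ
      have : Z.1 ∈ Set.range f := by rw [hf2]; exact ⟨Z.2, hZ⟩
      obtain ⟨a, ha⟩ := this
      exact ⟨a, Subtype.ext ha⟩

theorem not_isRamsey : ¬ IsRamsey idl setA := by
  intro h
  obtain ⟨Y, hY, -, hh⟩ := h Set.univ (mem_pos.2 ⟨_, 0, state_univ, subset_rfl⟩)
  obtain ⟨W, k, hW, hWY⟩ := mem_pos.1 hY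
  obtain ⟨⟨Z1, h1, h2, h3⟩, Z2, h4, h5, h6⟩ := hW.not_hom
  obtain ⟨c1, rfl⟩ := exists_toSet Z1
  obtain ⟨c2, rfl⟩ := exists_toSet Z2
  rcases hh with hh | hh
  · exact h6 (hh ⟨c2, h5⟩ (h4.trans hWY))
  · exact hh ⟨c1, h2⟩ (h1.trans hWY) h3

end Pool.Agent.Work.MP_63712b_lc
end
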